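import Mathlib
import Pool.Graph.R_seed8.H77CS.Coll

set_option autoImplicit false

open Finset

namespace Pool.Agent.KS6_25.CSR

open Pool.Agent.H77CS

/-- explicit form of `coll_exp`: the threshold is a polynomial in `1 / η` -/
theorem coll_explicit {p : ℝ} (hp0 : 0 < p) (hp1 : p < 1) {c0 : ℝ} (hc0 : 0 < c0) :
    ∃ (C : ℝ) (s2 : ℕ), 0 < C ∧ ∀ η : ℝ, 0 < η → ∀ s1 : ℕ, C / η ≤ s1 →
      ∀ n ≥ ((s1 + s2 + 1) * (s1 + s2 + 1)) * ((s1 + s2 + 1) * (s1 + s2 + 1)),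
      ∀ (m α β : ℕ) (F : Finset ℕ), c0 * n ≤ m → 2 * m ≤ n →
      n ≤ 2 * α → α + β ≤ n → F ⊆ Ioc m (2 * m) →
      Ex p (Ioc α (α + β)) (fun A => ((collset F A).card : ℝ)) ≤
        16 * m ^ 2 * β / n + η * n ^ 2 := by
  obtain ⟨Λ1, hΛ1⟩ := err_eventually hp0 hp1 3
  obtain ⟨s2, hs2⟩ := exists_nat_ge (2 * (2 ^ (Λ1 + 10) + 1) / c0)
  refine ⟨15 + 8 / c0 + 2 ^ 20 / c0 ^ 8, s2, by positivity, ?_⟩
  intro η hη s1 hs1 n hn m α β F hm hmn hα hβ hF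
  set C : ℝ := 15 + 8 / c0 + 2 ^ 20 / c0 ^ 8 with hC
  set s0 := s1 + s2 + 1 with hs0
  set s := Nat.sqrt (Nat.sqrt n) with hs
  have hss : s0 ≤ s := by
    rw [hs, Nat.le_sqrt, Nat.le_sqrt]; exact hn
  have hs4 : s ^ 4 ≤ n := by
    have h1 := Nat.sqrt_le' n
    have h2 := Nat.sqrt_le' (Nat.sqrt n)
    calc s ^ 4 = (s ^ 2) ^ 2 := by ring
      _ ≤ (Nat.sqrt n) ^ 2 := Nat.pow_le_pow_left h2 2
      _ ≤ n := h1
  have hs4' : n < (s + 1) ^ 4 := by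
    have h1 := Nat.lt_succ_sqrt' n
    have h2 := Nat.lt_succ_sqrt' (Nat.sqrt n)
    calc n < (Nat.sqrt n + 1) ^ 2 := h1
      _ ≤ ((s + 1) ^ 2) ^ 2 := Nat.pow_le_pow_left h2 2
      _ = (s + 1) ^ 4 := by ring
  have hspos : 1 ≤ s := by omega
  have hsr : (1 : ℝ) ≤ s := by exact_mod_cast hspos
  have hn0 : 0 < n := by
    have : 0 < s ^ 4 := by positivity
    omega
  have hnr : (0 : ℝ) < n := by exact_mod_cast hn0
  set t := ⌊c0 * s⌋₊ with htdef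
  have ht : (t : ℝ) ≤ c0 * s := Nat.floor_le (by positivity)
  have hs2' : (2 * (2 ^ (Λ1 + 10) + 1) : ℝ) ≤ c0 * s := by
    have h1 : (s2 : ℝ) ≤ s := by exact_mod_cast (by omega : s2 ≤ s)
    have h2 := (div_le_iff₀ hc0).mp (hs2.trans h1)
    linarith
  have htge : c0 * s / 2 ≤ t := by
    have h1 : c0 * s - 1 < t := Nat.sub_one_lt_floor _
    have h2 : (0 : ℝ) ≤ 2 ^ (Λ1 + 10) := by positivity
    linarith
  have ht1 : 2 ^ (Λ1 + 10) ≤ t := by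
    have : ((2 ^ (Λ1 + 10) : ℕ) : ℝ) ≤ t := by
      push_cast
      linarith
    exact_mod_cast this
  have htr : (0 : ℝ) < t := by
    have : 0 < c0 * s / 2 := by positivity
    linarith
  have hFcard : F.card ≤ m := by
    calc F.card ≤ (Ioc m (2 * m)).card := Finset.card_le_card hF
      _ = m := by simp; omega
  have hFr : (F.card : ℝ) ≤ m := by exact_mod_cast hFcard
  have hmr : (2 : ℝ) * m ≤ n := by exact_mod_cast hmn
  set bl : ℝ := 16 * β / n + (4 / t + 8 / n + 256 * n / t ^ 8) with hbl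
  have hbl0 : 0 ≤ bl := by positivity
  have h1 : Ex p (Ioc α (α + β)) (fun A => ((collset F A).card : ℝ)) ≤
      ∑ x ∈ F, ∑ x' ∈ F.filter (fun x' => x < x'),
        ((if ct F x x' < s then 10 + 4 * (s : ℝ) else 0) + bl) := by
    simp_rw [collset_card]
    rw [Ex_sum]
    apply Finset.sum_le_sum
    intro x hx
    rw [Ex_sum]
    apply Finset.sum_le_sum
    intro x' hx'
    have hx'' := mem_filter.mp hx'
    exact pair_bound hp0 hp1 hc0 hΛ1 hn0 hm hmn hα hβ hF ht ht1 hx hx''.1 hx''.2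
  have h2 : ∀ x ∈ F, ∑ x' ∈ F.filter (fun x' => x < x'),
        ((if ct F x x' < s then 10 + 4 * (s : ℝ) else 0) + bl) ≤
        s * (10 + 4 * s) + m * bl := by
    intro x _
    rw [Finset.sum_add_distrib, ← Finset.sum_filter, Finset.sum_const, Finset.sum_const,
      nsmul_eq_mul, nsmul_eq_mul]
    have h3 : (((F.filter (fun x' => x < x')).filter (fun x' => ct F x x' < s)).card : ℝ) ≤ s := by
      exact_mod_cast few_small F x s
    have h4 : ((F.filter (fun x' => x < x')).card : ℝ) ≤ m := by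
      have : (F.filter (fun x' => x < x')).card ≤ F.card := Finset.card_filter_le _ _
      exact_mod_cast this.trans hFcard
    gcongr
  have h3 : Ex p (Ioc α (α + β)) (fun A => ((collset F A).card : ℝ)) ≤
      m * (s * (10 + 4 * s) + m * bl) := by
    calc _ ≤ ∑ x ∈ F, (s * (10 + 4 * (s : ℝ)) + m * bl) := h1.trans (Finset.sum_le_sum h2)
      _ = F.card * (s * (10 + 4 * s) + m * bl) := by rw [Finset.sum_const, nsmul_eq_mul]
      _ ≤ _ := by gcongr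
  refine h3.trans ?_
  -- now asymptotics
  have hs4r : (s : ℝ) ^ 4 ≤ n := by exact_mod_cast hs4
  have hs4r' : (n : ℝ) ≤ 16 * (s : ℝ) ^ 4 := by
    have : (n : ℝ) < ((s : ℝ) + 1) ^ 4 := by exact_mod_cast hs4'
    calc (n : ℝ) ≤ ((s : ℝ) + 1) ^ 4 := this.le
      _ ≤ (2 * s) ^ 4 := by gcongr; linarith
      _ = 16 * (s : ℝ) ^ 4 := by ring
  have hsn : (s : ℝ) ≤ n := by
    have h4 : (s : ℝ) ^ 1 ≤ (s : ℝ) ^ 4 := pow_le_pow_right₀ hsr (by norm_num)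
    rw [pow_one] at h4; linarith
  have a1 : (m : ℝ) * (s * (10 + 4 * s)) ≤ 7 * n ^ 2 / s := by
    rw [le_div_iff₀ (by positivity)]
    have h5 : (s : ℝ) * (10 + 4 * s) ≤ 14 * s ^ 2 := by nlinarith
    have h6 : (s : ℝ) ^ 3 ≤ n := by
      have : (s : ℝ) ^ 3 ≤ (s : ℝ) ^ 4 := pow_le_pow_right₀ hsr (by norm_num)
      linarith
    have h7 : (m : ℝ) * (s * (10 + 4 * s)) * s ≤ m * (14 * s ^ 2) * s := by gcongr
    have h8 : (m : ℝ) * (14 * s ^ 2) * s = 7 * (2 * m) * s ^ 3 := by ring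
    have h9 : 7 * (2 * (m : ℝ)) * s ^ 3 ≤ 7 * n * n := by gcongr
    nlinarith
  have a2 : 4 / (t : ℝ) ≤ (8 / c0) / s := by
    rw [div_div, div_le_div_iff₀ htr (by positivity)]
    linarith
  have a3 : 8 / (n : ℝ) ≤ 8 / s := by
    apply div_le_div_of_nonneg_left (by norm_num) (by positivity) hsn
  have a4 : 256 * (n : ℝ) / t ^ 8 ≤ (2 ^ 20 / c0 ^ 8) / s := by
    have h5 : (c0 * s / 2) ^ 8 ≤ (t : ℝ) ^ 8 := by gcongr
    have h6 : (c0 * s / 2) ^ 8 = c0 ^ 8 * s ^ 8 / 256 := by ring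
    rw [h6] at h5
    rw [div_div, div_le_div_iff₀ (by positivity) (by positivity)]
    have h7 : (s : ℝ) ^ 4 * (s : ℝ) ≤ (s : ℝ) ^ 8 := by
      calc (s : ℝ) ^ 4 * (s : ℝ) = (s : ℝ) ^ 5 := by ring
        _ ≤ (s : ℝ) ^ 8 := pow_le_pow_right₀ hsr (by norm_num)
    have h8 : 256 * (n : ℝ) * (c0 ^ 8 * s) ≤ 256 * (16 * (s : ℝ) ^ 4) * (c0 ^ 8 * s) := by gcongr
    have h9 : 256 * (16 * (s : ℝ) ^ 4) * (c0 ^ 8 * s) = 2 ^ 12 * c0 ^ 8 * (s ^ 4 * s) := by ring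
    have h10 : 2 ^ 12 * c0 ^ 8 * ((s : ℝ) ^ 4 * s) ≤ 2 ^ 12 * c0 ^ 8 * s ^ 8 := by gcongr
    have h11 : 2 ^ 12 * c0 ^ 8 * (s : ℝ) ^ 8 = 2 ^ 20 * (c0 ^ 8 * s ^ 8 / 256) := by ring
    have h12 : (2 : ℝ) ^ 20 * (c0 ^ 8 * s ^ 8 / 256) ≤ 2 ^ 20 * t ^ 8 := by gcongr
    linarith
  have a5 : C / s ≤ η := by
    rw [div_le_iff₀ (by positivity)]
    have h5 : (s1 : ℝ) ≤ s := by exact_mod_cast (by omega : s1 ≤ s)
    have h6 := (div_le_iff₀ hη).mp (hs1.trans h5)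
    linarith
  have a6 : (m : ℝ) * (m * bl) ≤ 16 * m ^ 2 * β / n +
      n ^ 2 * ((8 / c0) / s + 8 / s + (2 ^ 20 / c0 ^ 8) / s) := by
    have h5 : (m : ℝ) * (m * bl) = 16 * m ^ 2 * β / n +
        m ^ 2 * (4 / t + 8 / n + 256 * n / t ^ 8) := by
      rw [hbl]; ring
    rw [h5]
    have h6 : (m : ℝ) ^ 2 ≤ n ^ 2 := by
      have : (m : ℝ) ≤ n := by linarith [(Nat.cast_nonneg m : (0:ℝ) ≤ m)]
      gcongr
    have h7 : (m : ℝ) ^ 2 * (4 / t + 8 / n + 256 * n / t ^ 8) ≤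
        n ^ 2 * ((8 / c0) / s + 8 / s + (2 ^ 20 / c0 ^ 8) / s) := by
      apply mul_le_mul h6 (by linarith) (by positivity) (by positivity)
    linarith
  have a7 : 7 * (n : ℝ) ^ 2 / s + n ^ 2 * ((8 / c0) / s + 8 / s + (2 ^ 20 / c0 ^ 8) / s) =
      n ^ 2 * (C / s) := by
    rw [hC]; ring
  have a8 : (n : ℝ) ^ 2 * (C / s) ≤ n ^ 2 * η := by gcongr
  have a9 : (m : ℝ) * (s * (10 + 4 * s) + m * bl) =
      m * (s * (10 + 4 * s)) + m * (m * bl) := by ring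
  rw [a9]
  linarith

end Pool.Agent.KS6_25.CSR
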