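import Mathlib
import Pool.Graph.R_seed8.H77CS.Coll

set_option autoImplicit false

open Finset

namespace Pool.Agent.KS6_25.CSR

open Pool.Agent.H77CS

theorem two_pow_ge (m : ℕ) (hm : 7 ≤ m) : 16 * m + 12 ≤ 2 ^ m := by
  induction m, hm using Nat.le_induction with
  | base => norm_num
  | succ m hm ih => rw [pow_succ]; omega

/-- explicit form of `err_eventually` -/
theorem err_explicit {p : ℝ} (hp0 : 0 < p) (hp1 : p < 1) {a : ℕ}
    (ha : (1 / 2 : ℝ) ^ a ≤ p * (1 - p)) (κ Λ : ℕ) (hΛ : (4 * a + 6) * 2 ^ κ + 32 ≤ Λ) :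
    err p κ Λ ≤ 1 / (2 : ℝ) ^ (8 * Λ) := by
  set K := 2 ^ κ with hK
  have hκK : κ ≤ K := Nat.lt_two_pow_self.le
  have hK1 : 1 ≤ K := Nat.one_le_two_pow
  set ν := (Λ - 3 * κ) / 2 with hν
  have hexp : (4 * a + 6) * K = 4 * (a * K) + 6 * K := by ring
  have hν1 : a * K + Λ / 4 ≤ ν := by
    rw [hν]
    omega
  have hq0 : 0 < p * (1 - p) := mul_pos hp0 (by linarith)
  have he0 : 0 ≤ eta p K := eta_nonneg hp0.le hp1.le (by omega)
  -- `eta ≤ exp (-2 q^K)`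
  have h1 : eta p K ≤ Real.exp (-(2 * (1 / 2 : ℝ) ^ (a * K))) := by
    have h2 : (1 / 2 : ℝ) ^ (a * K) ≤ (p * (1 - p)) ^ K := by
      rw [pow_mul]
      gcongr
    have h3 := Real.add_one_le_exp (-(2 * (1 / 2 : ℝ) ^ (a * K)))
    unfold eta
    linarith
  have h4 : eta p K ^ (2 ^ ν) ≤ Real.exp (-(2 * (2 : ℝ) ^ (Λ / 4))) := by
    calc eta p K ^ (2 ^ ν) ≤ Real.exp (-(2 * (1 / 2 : ℝ) ^ (a * K))) ^ (2 ^ ν) := by gcongr
      _ = Real.exp (((2 ^ ν : ℕ) : ℝ) * (-(2 * (1 / 2 : ℝ) ^ (a * K)))) := by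
          rw [Real.exp_nat_mul]
      _ ≤ _ := by
          apply Real.exp_le_exp.2
          push_cast
          have h5 : (2 : ℝ) ^ (Λ / 4) ≤ (2 : ℝ) ^ ν * (1 / 2 : ℝ) ^ (a * K) := by
            have e1 : (2 : ℝ) ^ (a * K + Λ / 4) ≤ 2 ^ ν := pow_le_pow_right₀ (by norm_num) hν1
            calc (2 : ℝ) ^ (Λ / 4) = (2 : ℝ) ^ (a * K + Λ / 4) * (1 / 2 : ℝ) ^ (a * K) := by
                  rw [pow_add, one_div, inv_pow]
                  field_simp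
              _ ≤ _ := by gcongr
          nlinarith
  have h6 : 4 * Λ ≤ 2 ^ (Λ / 4) := by
    have h7 := two_pow_ge (Λ / 4) (by omega)
    omega
  have h6r : 4 * (Λ : ℝ) ≤ (2 : ℝ) ^ (Λ / 4) := by exact_mod_cast h6
  have hl2 : Real.log 2 < 0.6931471808 := Real.log_two_lt_d9
  unfold err
  have h7 : (Λ : ℝ) ≤ (2 : ℝ) ^ Λ := by exact_mod_cast Nat.lt_two_pow_self.le
  calc (Λ : ℝ) * eta p (2 ^ κ) ^ (2 ^ ((Λ - 3 * κ) / 2))
      ≤ (2 : ℝ) ^ Λ * Real.exp (-(2 * (2 : ℝ) ^ (Λ / 4))) := by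
        apply mul_le_mul h7 h4 (by positivity) (by positivity)
    _ ≤ (2 : ℝ) ^ Λ * Real.exp (-(9 * Λ * Real.log 2)) := by
        apply mul_le_mul_of_nonneg_left _ (by positivity)
        apply Real.exp_le_exp.2
        have : (0 : ℝ) ≤ Λ := Nat.cast_nonneg _
        nlinarith
    _ = 1 / (2 : ℝ) ^ (8 * Λ) := by
        have e1 : -(9 * (Λ : ℝ) * Real.log 2) = ((9 * Λ : ℕ) : ℝ) * (-Real.log 2) := by
          push_cast; ring
        rw [e1, Real.exp_nat_mul, Real.exp_neg, Real.exp_log (by norm_num), inv_pow,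
          ← div_eq_mul_inv, div_eq_div_iff (by positivity) (by positivity), ← pow_add, one_mul]
        congr 1; ring

end Pool.Agent.KS6_25.CSR
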