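import Mathlib
import Pool.Graph.R_seed8.H77CS.Final
import Pool.Agent.KS6_25.CSR.Err
import Pool.Agent.KS6_25.CSR.CollX

set_option autoImplicit false

open Finset

namespace Pool.Agent.KS6_25.CSR

open Pool.Agent.H77CS

/-- explicit form of `main_bound`: `B` may be of order `log n` -/
theorem main_explicit {p : ℝ} (hp0 : 0 < p) (hp1 : p < 1) :
    ∃ C : ℕ, 0 < C ∧ ∀ B : ℕ, 0 < B → ∀ n : ℕ, 2 ^ (C * B) ≤ n →
      Ex p (Ioc 0 n) (fun A => if ((Sm A).card : ℝ) < p ^ 4 / 20971520 * n ^ 2 then (1 : ℝ) else 0)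
        ≤ 65536 / (p ^ 3 * n) + (4 / 5) ^ B := by
  set c0 : ℝ := p ^ 2 / 16384 with hc0
  have hc0pos : 0 < c0 := by positivity
  obtain ⟨a, ha⟩ := exists_pow_lt_of_lt_one (mul_pos hp0 (by linarith : (0 : ℝ) < 1 - p))
    (show (1 / 2 : ℝ) < 1 by norm_num)
  obtain ⟨C', s2, hC', hcoll0⟩ := coll_explicit hp0 hp1 hc0pos
  obtain ⟨u, hu⟩ := exists_nat_ge (C' * 2560 / (p ^ 2 * c0))
  obtain ⟨c2, hc2⟩ := exists_nat_ge (16384 / p ^ 2)
  obtain ⟨c3, hc3⟩ := exists_nat_ge (320 / p + 20)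
  refine ⟨4 * (u + s2 + 1) + 4 + c2 + (8 * a + 52) + (c3 + 1), by omega, ?_⟩
  intro B hB n hnC
  have hBr : (0 : ℝ) < B := by exact_mod_cast hB
  set κ := Nat.log 2 B + 1 with hκ
  have hκ1 : B ≤ 2 ^ κ := (Nat.lt_pow_succ_log_self (by norm_num) B).le
  have hκ2 : 2 ^ κ ≤ 2 * B := by
    have := Nat.pow_log_le_self 2 (show B ≠ 0 by omega)
    rw [hκ, pow_succ]; omega
  have hκ3 : κ ≤ 2 ^ κ := Nat.lt_two_pow_self.le
  set Λ1 := (4 * a + 6) * 2 ^ κ + 32 with hΛ1d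
  have hΛ1 : ∀ Λ ≥ Λ1, err p κ Λ ≤ 1 / (2 : ℝ) ^ (8 * Λ) := fun Λ hΛ =>
    err_explicit hp0 hp1 ha.le κ Λ hΛ
  have hB2 : B ≤ 2 ^ B := Nat.lt_two_pow_self.le
  set η : ℝ := p ^ 2 * c0 / (2560 * B) with hη
  have hηpos : 0 < η := by positivity
  -- the three size conditions
  have hA : ((u * B + s2 + 1) * (u * B + s2 + 1)) * ((u * B + s2 + 1) * (u * B + s2 + 1)) ≤ n := by
    refine le_trans ?_ hnC
    have h1 : u * B + s2 + 1 ≤ 2 ^ ((u + s2 + 1 + 1) * B) := by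
      calc u * B + s2 + 1 ≤ (u + s2 + 1) * B := by nlinarith
        _ ≤ 2 ^ (u + s2 + 1) * 2 ^ B := Nat.mul_le_mul Nat.lt_two_pow_self.le hB2
        _ ≤ 2 ^ ((u + s2 + 1) * B) * 2 ^ B :=
            Nat.mul_le_mul_right _ (Nat.pow_le_pow_right (by norm_num)
              (Nat.le_mul_of_pos_right _ hB))
        _ = 2 ^ ((u + s2 + 1 + 1) * B) := by rw [← pow_add]; congr 1; ring
    calc ((u * B + s2 + 1) * (u * B + s2 + 1)) * ((u * B + s2 + 1) * (u * B + s2 + 1))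
        ≤ (2 ^ ((u + s2 + 1 + 1) * B) * 2 ^ ((u + s2 + 1 + 1) * B)) *
          (2 ^ ((u + s2 + 1 + 1) * B) * 2 ^ ((u + s2 + 1 + 1) * B)) :=
          Nat.mul_le_mul (Nat.mul_le_mul h1 h1) (Nat.mul_le_mul h1 h1)
      _ = 2 ^ (4 * ((u + s2 + 1 + 1) * B)) := by rw [← pow_add, ← pow_add]; congr 1; ring
      _ ≤ _ := by
          apply Nat.pow_le_pow_right (by norm_num)
          have : 4 * ((u + s2 + 1 + 1) * B) = (4 * (u + s2 + 1) + 4) * B := by ring
          rw [this]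
          exact Nat.mul_le_mul_right _ (by omega)
  have hΛB : Λ1 + 3 * κ + 1 + 1 ≤ (8 * a + 52) * B := by
    have h1 : (4 * a + 6) * 2 ^ κ ≤ (4 * a + 6) * (2 * B) := Nat.mul_le_mul_left _ hκ2
    have h2 : (4 * a + 6) * (2 * B) = 8 * (a * B) + 12 * B := by ring
    have h3 : (8 * a + 52) * B = 8 * (a * B) + 52 * B := by ring
    omega
  have hBB : 16384 / p ^ 2 * (2 ^ (Λ1 + 3 * κ + 1) + 1) ≤ (n : ℝ) := by
    have h1 : (2 : ℝ) ^ (Λ1 + 3 * κ + 1) + 1 ≤ 2 ^ ((8 * a + 52) * B) := by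
      have h2 : (1 : ℝ) ≤ 2 ^ (Λ1 + 3 * κ + 1) := one_le_pow₀ (by norm_num)
      calc (2 : ℝ) ^ (Λ1 + 3 * κ + 1) + 1 ≤ 2 ^ (Λ1 + 3 * κ + 1 + 1) := by
            rw [pow_succ _ (Λ1 + 3 * κ + 1)]; linarith
        _ ≤ _ := pow_le_pow_right₀ (by norm_num) hΛB
    have h3 : 16384 / p ^ 2 ≤ (2 : ℝ) ^ (c2 * B) := by
      have h4 : c2 ≤ 2 ^ (c2 * B) :=
        Nat.lt_two_pow_self.le.trans (Nat.pow_le_pow_right (by norm_num)
          (Nat.le_mul_of_pos_right _ hB))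
      exact hc2.trans (by exact_mod_cast h4)
    calc 16384 / p ^ 2 * (2 ^ (Λ1 + 3 * κ + 1) + 1)
        ≤ (2 : ℝ) ^ (c2 * B) * 2 ^ ((8 * a + 52) * B) := by gcongr
      _ = 2 ^ ((c2 + (8 * a + 52)) * B) := by rw [← pow_add]; congr 1; ring
      _ ≤ 2 ^ ((4 * (u + s2 + 1) + 4 + c2 + (8 * a + 52) + (c3 + 1)) * B) := by
          apply pow_le_pow_right₀ (by norm_num)
          exact Nat.mul_le_mul_right _ (by omega)
      _ ≤ n := by exact_mod_cast hnC
  have hCC : 64 / p * (5 * B) + 20 * B ≤ (n : ℝ) := by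
    have h1 : c3 * B ≤ n := by
      refine le_trans ?_ hnC
      calc c3 * B ≤ 2 ^ (c3 * B) * 2 ^ B :=
            Nat.mul_le_mul (Nat.lt_two_pow_self.le.trans (Nat.pow_le_pow_right (by norm_num)
              (Nat.le_mul_of_pos_right _ hB))) hB2
        _ = 2 ^ ((c3 + 1) * B) := by rw [← pow_add]; congr 1; ring
        _ ≤ _ := by
            apply Nat.pow_le_pow_right (by norm_num)
            exact Nat.mul_le_mul_right _ (by omega)
    have h1r : (c3 : ℝ) * B ≤ n := by exact_mod_cast h1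
    calc 64 / p * (5 * B) + 20 * B = (320 / p + 20) * B := by ring
      _ ≤ c3 * B := by gcongr
      _ ≤ n := h1r
  have hn0 : 0 < n := lt_of_lt_of_le (by positivity) hnC
  have hnr : (0 : ℝ) < n := by exact_mod_cast hn0
  have hnn2 : 16384 / p ^ 2 * (2 ^ (Λ1 + 3 * κ + 1) + 1) ≤ (n : ℝ) := hBB
  have hnn3 : 64 / p * (5 * B) + 20 * B ≤ (n : ℝ) := hCC
  set m := ⌊p ^ 2 * n / 8192⌋₊ with hm
  have hm1 : (m : ℝ) ≤ p ^ 2 * n / 8192 := Nat.floor_le (by positivity)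
  have hm2' : p ^ 2 * n / 8192 - 1 < m := Nat.sub_one_lt_floor _
  have hbig : (2 : ℝ) ^ (Λ1 + 3 * κ + 1) + 1 ≤ p ^ 2 * n / 16384 := by
    have h1 : 16384 / p ^ 2 * (2 ^ (Λ1 + 3 * κ + 1) + 1) * p ^ 2 ≤ n * p ^ 2 := by gcongr
    have h2 : 16384 / p ^ 2 * (2 ^ (Λ1 + 3 * κ + 1) + 1) * p ^ 2 =
        16384 * ((2 : ℝ) ^ (Λ1 + 3 * κ + 1) + 1) := by field_simp
    rw [h2] at h1
    linarith
  have hpow1 : (1 : ℝ) ≤ 2 ^ (Λ1 + 3 * κ + 1) := one_le_pow₀ (by norm_num)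
  have hm2 : p ^ 2 * n / 16384 ≤ m := by linarith
  have hm3 : (2 : ℝ) ^ (Λ1 + 3 * κ + 1) ≤ m := by linarith
  have hm3' : 2 ^ (Λ1 + 3 * κ + 1) ≤ m := by exact_mod_cast hm3
  have hm0 : 0 < m := lt_of_lt_of_le (by positivity) hm3'
  have hmr : (0 : ℝ) < m := by exact_mod_cast hm0
  have hp2 : p ^ 2 ≤ 1 := pow_le_one₀ hp0.le hp1.le
  have hmn' : 8192 * (m : ℝ) ≤ n := by
    have : p ^ 2 * n ≤ 1 * n := by gcongr
    linarith
  have hmn : 8192 * m ≤ n := by exact_mod_cast hmn'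
  set β := n / (4 * B) with hβ
  have hβ1 : 4 * B * β ≤ n := Nat.mul_div_le n (4 * B)
  have hβ2 : n < 4 * B * (β + 1) := by
    have := Nat.lt_mul_div_succ n (show 0 < 4 * B by omega)
    exact this
  have hβ2r : (n : ℝ) < 4 * B * (β + 1) := by exact_mod_cast hβ2
  have hβ3 : (n : ℝ) ≤ 5 * (B * β) := by
    have h1 : 20 * (B : ℝ) ≤ n := by
      have : 0 ≤ 64 / p * (5 * B) := by positivity
      linarith
    nlinarith
  have hβ0r : (0 : ℝ) < β := by
    by_contra hcon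
    push Not at hcon
    have : (B : ℝ) * β ≤ 0 := mul_nonpos_of_nonneg_of_nonpos hBr.le hcon
    linarith
  have hβ0 : 0 < β := by exact_mod_cast hβ0r
  have hβ4 : 64 / p ≤ β := by
    have h1 : 64 / p * (5 * B) ≤ 5 * (B * β) := by linarith
    have h2 : (64 / p) * (5 * B) ≤ β * (5 * B) := by linarith
    exact le_of_mul_le_mul_right h2 (by positivity)
  have hs1 : C' / η ≤ ((u * B : ℕ) : ℝ) := by
    push_cast
    have h1 : C' / η = C' * 2560 / (p ^ 2 * c0) * B := by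
      rw [hη]; field_simp
    rw [h1]
    gcongr
  set n1 := n - 2 * β * B with hn1
  have h2β : 2 * (2 * β * B) ≤ n := by
    calc 2 * (2 * β * B) = 4 * B * β := by ring
      _ ≤ n := hβ1
  have hn1e : n1 + 2 * β * B = n := by omega
  have hn1' : n ≤ 2 * n1 := by omega
  have hn10 : 0 < n1 := by omega
  -- window
  set Λ := Nat.log 2 (16 * m) + 1 with hΛ
  have hW1 : 16 * m < 2 ^ Λ := Nat.lt_pow_succ_log_self (by norm_num) _
  have hW2 : 2 ^ Λ ≤ 32 * m := by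
    have := Nat.pow_log_le_self 2 (show 16 * m ≠ 0 by omega)
    rw [hΛ, pow_succ]; omega
  have hΛbig : Λ1 + 3 * κ + 1 ≤ Λ := by
    by_contra hcon
    push Not at hcon
    have : 2 ^ Λ ≤ 2 ^ (Λ1 + 3 * κ + 1) := Nat.pow_le_pow_right (by norm_num) (by omega)
    omega
  have hℓ : 2 ^ (Λ + 2 - κ) ≤ β := by
    have h1 : 2 ^ (Λ + 2 - κ) * 2 ^ κ = 2 ^ (Λ + 2) := by
      rw [← pow_add]; congr 1; omega
    have h2 : 2 ^ (Λ + 2) = 4 * 2 ^ Λ := by rw [pow_add]; ring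
    have h4 : 5 * (2 ^ (Λ + 2 - κ) * 2 ^ κ) ≤ 5 * (β * 2 ^ κ) := by
      have h5 : n ≤ 5 * (B * β) := by exact_mod_cast hβ3
      have h6 : B * β ≤ 2 ^ κ * β := Nat.mul_le_mul_right _ hκ1
      rw [h1, h2]
      have h7 : β * 2 ^ κ = 2 ^ κ * β := by ring
      omega
    have h5 : 2 ^ (Λ + 2 - κ) * 2 ^ κ ≤ β * 2 ^ κ := by omega
    exact Nat.le_of_mul_le_mul_right h5 (by positivity)
  have hU : ∀ M, Unif p (Ioc M (M + β)) (2 ^ Λ) (err p κ Λ) := fun M =>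
    unif_main hp0.le hp1.le M κ Λ β (by omega) hℓ
  have herr : err p κ Λ ≤ 1 / 32 := by
    refine (hΛ1 Λ (by omega)).trans ?_
    apply div_le_div_of_nonneg_left (by norm_num) (by norm_num)
    calc (32 : ℝ) = 2 ^ 5 := by norm_num
      _ ≤ 2 ^ (8 * Λ) := pow_le_pow_right₀ (by norm_num) (by omega)
  have hdens : ((m * (2 ^ Λ / n1 + 1) : ℕ) : ℝ) ≤ ((2 ^ Λ : ℕ) : ℝ) / 8 := by
    have h1 : 2 ^ Λ / n1 = 0 := Nat.div_eq_of_lt (by omega)
    rw [h1, le_div_iff₀ (by norm_num)]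
    have : m * (0 + 1) * 8 ≤ 2 ^ Λ := by omega
    exact_mod_cast this
  have hcoll : ∀ b < B, ∀ F ⊆ Ioc m (2 * m),
      Ex p (Ioc (n1 + 2 * β * b + β) (n1 + 2 * β * b + 2 * β))
      (fun A => ((collset F A).card : ℝ)) ≤ (1 / 16) * (p ^ 2 * m * β / 16) := by
    intro b hb F hF
    have hbB : 2 * β * b + 2 * β ≤ 2 * β * B := by
      calc 2 * β * b + 2 * β = 2 * β * (b + 1) := by ring
        _ ≤ 2 * β * B := Nat.mul_le_mul_left _ hb
    have h1 := hcoll0 η hηpos (u * B) hs1 n hA m (n1 + 2 * β * b + β) β F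
        (by rw [hc0]; linarith) (by omega) (by omega) (by omega) hF
    have e : n1 + 2 * β * b + β + β = n1 + 2 * β * b + 2 * β := by ring
    rw [e] at h1
    refine h1.trans ?_
    have h2 : 16 * (m : ℝ) ^ 2 * β / n ≤ p ^ 2 * m * β / 512 := by
      rw [div_le_iff₀ hnr]
      have h3 : (m : ℝ) * (16 * m * β) ≤ (p ^ 2 * n / 8192) * (16 * m * β) := by gcongr
      calc 16 * (m : ℝ) ^ 2 * β = m * (16 * m * β) := by ring
        _ ≤ (p ^ 2 * n / 8192) * (16 * m * β) := h3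
        _ = p ^ 2 * m * β / 512 * n := by ring
    have h4 : η * (n : ℝ) ^ 2 ≤ p ^ 2 * m * β / 512 := by
      have h5 : c0 * n ≤ m := by rw [hc0]; linarith
      calc η * (n : ℝ) ^ 2 = p ^ 2 / (2560 * B) * (c0 * n) * n := by rw [hη]; ring
        _ ≤ p ^ 2 / (2560 * B) * m * (5 * (B * β)) := by gcongr
        _ = p ^ 2 * m * β / 512 := by field_simp; norm_num
    linarith
  have hβ5 : 4 / (p * β) ≤ 1 / 16 := by
    rw [div_le_div_iff₀ (by positivity) (by norm_num)]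
    rw [div_le_iff₀ hp0] at hβ4
    linarith
  have hall := Psi_all hp0 hp1 (B := B) (show 2 * m ≤ n1 by omega) hm0 hβ0 hn10 hU
    (by positivity) herr hdens hcoll hβ5
  rw [hn1e] at hall
  set c1 : ℝ := p ^ 2 * m * β / 16 with hc1
  have hc1pos : 0 < c1 := by positivity
  -- pointwise
  have hpt : ∀ A ⊆ Ioc 0 n,
      (if ((Sm A).card : ℝ) < p ^ 4 / 20971520 * n ^ 2 then (1 : ℝ) else 0) ≤
      (if ((Fs m A).card : ℝ) < p * (Ioc m (2 * m)).card / 2 then (1 : ℝ) else 0) +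
        Real.exp (B / 4) * Psi p (4 / c1) m n1 β B A := by
    intro A _
    have hcm : (Ioc m (2 * m)).card = m := by simp; omega
    rw [hcm]
    have hPsi0 : 0 ≤ Psi p (4 / c1) m n1 β B A := by
      unfold Psi; split_ifs
      · exact (Real.exp_pos _).le
      · exact le_refl _
    have hexp := Real.exp_pos ((B : ℝ) / 4)
    by_cases h1 : ((Fs m A).card : ℝ) < p * m / 2
    · rw [if_pos h1]
      have : (if ((Sm A).card : ℝ) < p ^ 4 / 20971520 * n ^ 2 then (1 : ℝ) else 0) ≤ 1 := by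
        split_ifs <;> norm_num
      have := mul_nonneg hexp.le hPsi0
      linarith
    · rw [if_neg h1]
      split_ifs with h2
      · unfold Psi
        push Not at h1
        rw [if_pos h1, zero_add, ← Real.exp_add]
        rw [← Real.exp_zero]
        apply Real.exp_le_exp.mpr
        have h3 : ((Ub m n1 β B A).card : ℝ) ≤ (Sm A).card := by
          exact_mod_cast Finset.card_le_card (Ub_subset (show 2 * m ≤ n1 by omega))
        have h4 : p ^ 4 / 20971520 * (n : ℝ) ^ 2 ≤ c1 * B / 16 := by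
          have h5 : (p ^ 2 * n / 16384) * n ≤ m * (5 * (B * β)) := by gcongr
          calc p ^ 4 / 20971520 * (n : ℝ) ^ 2
              = p ^ 2 / 1280 * ((p ^ 2 * n / 16384) * n) := by ring
            _ ≤ p ^ 2 / 1280 * (m * (5 * (B * β))) := by gcongr
            _ = c1 * B / 16 := by rw [hc1]; ring
        have h6 : ((Ub m n1 β B A).card : ℝ) ≤ c1 * B / 16 := by linarith
        have h7 : (4 / c1) * ((Ub m n1 β B A).card : ℝ) ≤ (4 / c1) * (c1 * B / 16) := by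
          gcongr
        have h8 : (4 / c1) * (c1 * B / 16) = (B : ℝ) / 4 := by field_simp; norm_num
        linarith
      · have := mul_nonneg hexp.le hPsi0
        linarith
  refine (Ex_mono hp0.le hp1.le hpt).trans ?_
  rw [Ex_add, Ex_mul]
  have hcm : (Ioc m (2 * m)).card = m := by simp; omega
  have e1 : Ex p (Ioc 0 n) (fun A =>
      (if ((Fs m A).card : ℝ) < p * (Ioc m (2 * m)).card / 2 then (1 : ℝ) else 0)) ≤
      65536 / (p ^ 3 * n) := by
    have h1 := Ex_Fs (p := p) (m := m) (n := n) (by omega)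
      (fun k => if (k : ℝ) < p * (Ioc m (2 * m)).card / 2 then (1 : ℝ) else 0)
    rw [h1]
    refine (Ex_indicator_card hp0 hp1.le (by rw [hcm]; exact hm0)).trans ?_
    rw [hcm, div_le_div_iff₀ (by positivity) (by positivity)]
    have h2 : 4 * (p ^ 3 * n) = 65536 * (p * (p ^ 2 * n / 16384)) := by ring
    rw [h2]
    gcongr
  have e2 : Real.exp (B / 4) * Ex p (Ioc 0 n) (Psi p (4 / c1) m n1 β B) ≤ (4 / 5) ^ B := by
    have h1 : Real.exp ((B : ℝ) / 4) = Real.exp (1 / 4) ^ B := by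
      rw [← Real.exp_nat_mul]; congr 1; ring
    have h2 : Real.exp (1 / 4) ≤ 4 / 3 := by
      have h3 : Real.exp (1 / 4) ^ 4 = Real.exp 1 := by
        rw [← Real.exp_nat_mul]; norm_num
      have h4 := Real.exp_one_lt_d9
      by_contra hcon
      push Not at hcon
      have h5 : (4 / 3 : ℝ) ^ 4 ≤ Real.exp (1 / 4) ^ 4 := by gcongr
      rw [h3] at h5
      norm_num at h5
      linarith
    calc Real.exp (B / 4) * Ex p (Ioc 0 n) (Psi p (4 / c1) m n1 β B)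
        ≤ Real.exp (1 / 4) ^ B * (3 / 5) ^ B := by
          rw [h1]; gcongr
      _ ≤ (4 / 3) ^ B * (3 / 5) ^ B := by gcongr
      _ = (4 / 5) ^ B := by rw [← mul_pow]; norm_num
  linarith

end Pool.Agent.KS6_25.CSR
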