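import Mathlib
import Pool.Agent.KS6_25.CSR.MainX

set_option autoImplicit false

open Finset

namespace Pool.Agent.KS6_25.CSR

open Pool.Agent.H77CS

/-- the indicator of the bad event: fewer than `p⁴ n² / 20971520` sums -/
noncomputable def bad (p : ℝ) (n : ℕ) (A : Finset ℕ) : ℝ :=
  if ((Sm A).card : ℝ) < p ^ 4 / 20971520 * (n : ℝ) ^ 2 then (1 : ℝ) else 0

theorem bad_le_one (p : ℝ) (n : ℕ) (A : Finset ℕ) : bad p n A ≤ 1 := by
  unfold bad; split_ifs <;> norm_num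

theorem rate {p : ℝ} (hp0 : 0 < p) (hp1 : p < 1) : ∃ δ D : ℝ, 0 < δ ∧ 0 < D ∧
    ∀ n : ℕ, 1 ≤ n → Ex p (Ioc 0 n) (bad p n) ≤ D * (n : ℝ) ^ (-δ) := by
  obtain ⟨C, hC0, hC⟩ := main_explicit hp0 hp1
  have hl2 : 0 < Real.log 2 := Real.log_pos (by norm_num)
  have hl54 : 0 < Real.log (5 / 4) := Real.log_pos (by norm_num)
  have hlle : Real.log (5 / 4) ≤ Real.log 2 := Real.log_le_log (by norm_num) (by norm_num)
  have hCr : (1 : ℝ) ≤ C := by exact_mod_cast hC0
  have hCl : 0 < (C : ℝ) * Real.log 2 := by positivity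
  set δ : ℝ := Real.log (5 / 4) / (C * Real.log 2) with hδ
  have hδ0 : 0 < δ := by positivity
  have hδ1 : δ ≤ 1 := by
    rw [hδ, div_le_one hCl]
    nlinarith
  refine ⟨δ, 65536 / p ^ 3 + 5 / 4, hδ0, by positivity, ?_⟩
  intro n hn
  have hnr : (1 : ℝ) ≤ n := by exact_mod_cast hn
  have hn0 : (0 : ℝ) < n := by linarith
  have hlogn : 0 ≤ Real.log n := Real.log_nonneg hnr
  set x : ℝ := Real.log n / (C * Real.log 2) with hx
  have hx0 : 0 ≤ x := by positivity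
  set B := ⌊x⌋₊ with hB
  have hBx : (B : ℝ) ≤ x := Nat.floor_le hx0
  have hBx' : x - 1 < B := Nat.sub_one_lt_floor _
  have hpow : ((4 : ℝ) / 5) ^ B ≤ 5 / 4 * (n : ℝ) ^ (-δ) := by
    have e1 : (4 / 5 : ℝ) = Real.exp (-Real.log (5 / 4)) := by
      rw [Real.exp_neg, Real.exp_log (by norm_num)]; norm_num
    have e2 : (n : ℝ) ^ (-δ) = Real.exp (-(x * Real.log (5 / 4))) := by
      rw [Real.rpow_def_of_pos hn0]
      congr 1
      rw [hδ, hx]; ring
    have e3 : (5 / 4 : ℝ) = Real.exp (Real.log (5 / 4)) := by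
      rw [Real.exp_log (by norm_num)]
    rw [e1, ← Real.exp_nat_mul, e2]
    nth_rewrite 2 [e3]
    rw [← Real.exp_add]
    apply Real.exp_le_exp.2
    nlinarith
  have hinv : 65536 / (p ^ 3 * n) ≤ 65536 / p ^ 3 * (n : ℝ) ^ (-δ) := by
    rw [← div_div, div_eq_mul_inv (65536 / p ^ 3)]
    apply mul_le_mul_of_nonneg_left _ (by positivity)
    rw [← Real.rpow_neg_one]
    exact Real.rpow_le_rpow_of_exponent_le hnr (by linarith)
  rcases Nat.eq_zero_or_pos B with h0 | h0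
  · have h1 : Ex p (Ioc 0 n) (bad p n) ≤ 1 :=
      Ex_le_const hp0.le hp1.le fun A _ => bad_le_one p n A
    rw [h0, pow_zero] at hpow
    have h2 : 0 ≤ 65536 / p ^ 3 * (n : ℝ) ^ (-δ) := by positivity
    linarith
  · have h1 : 2 ^ (C * B) ≤ n := by
      have h2 : ((2 ^ (C * B) : ℕ) : ℝ) ≤ n := by
        push_cast
        rw [← Real.log_le_log_iff (by positivity) hn0, Real.log_pow]
        push_cast
        rw [hx, le_div_iff₀ hCl] at hBx
        linarith
      exact_mod_cast h2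
    have h3 := hC B h0 n h1
    have h4 : Ex p (Ioc 0 n) (bad p n) ≤ 65536 / (p ^ 3 * n) + (4 / 5) ^ B := h3
    linarith

end Pool.Agent.KS6_25.CSR
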