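import Mathlib
import Pool.Agent.KS6_25.CSR.Rate

set_option autoImplicit false

open Finset MeasureTheory ProbabilityTheory Filter Topology

namespace Pool.Agent.KS6_25.CSR

open Pool.Agent.H77CS

/-- the part in `[n]` of the random set `{i | ξ i = true}` -/
def An {Ω : Type} (ξ : ℕ → Ω → Bool) (n : ℕ) (ω : Ω) : Finset ℕ :=
  (Icc 1 n).filter (fun i => ξ i ω = true)

section

variable {Ω : Type} [MeasurableSpace Ω] {P : Measure Ω} [IsProbabilityMeasure P]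
  {ξ : ℕ → Ω → Bool} {p : ℝ}

theorem prob_eq_set (hp0 : 0 ≤ p) (hp1 : p ≤ 1) (hm : ∀ i, Measurable (ξ i))
    (hi : iIndepFun ξ P) (hP : ∀ i, P {ω | ξ i ω = true} = ENNReal.ofReal p) (n : ℕ)
    (T : Finset ℕ) (hT : T ⊆ Icc 1 n) :
    P {ω | An ξ n ω = T} ≤ ENNReal.ofReal (p ^ T.card * (1 - p) ^ (n - T.card)) := by
  classical
  have hsub : {ω | An ξ n ω = T} ⊆
      ⋂ i ∈ Icc 1 n, ξ i ⁻¹' ({decide (i ∈ T)} : Set Bool) := by
    intro ω hω
    simp only [Set.mem_ofPred_eq] at hω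
    simp only [Set.mem_iInter]
    intro i hiI
    have hiff : i ∈ T ↔ ξ i ω = true := by
      rw [← hω]
      unfold An
      rw [Finset.mem_filter]
      exact ⟨fun h => h.2, fun h => ⟨hiI, h⟩⟩
    rw [Set.mem_preimage, Set.mem_singleton_iff]
    by_cases h : ξ i ω = true
    · simp [h, hiff]
    · simp only [Bool.not_eq_true] at h
      simp [h, hiff]
  refine (measure_mono hsub).trans ?_
  rw [hi.measure_inter_preimage_eq_mul _ (fun i _ => MeasurableSet.of_discrete)]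
  have hfac : ∀ i ∈ Icc 1 n, P (ξ i ⁻¹' ({decide (i ∈ T)} : Set Bool)) =
      if i ∈ T then ENNReal.ofReal p else ENNReal.ofReal (1 - p) := by
    intro i _
    by_cases h : i ∈ T
    · rw [if_pos h]
      have : ξ i ⁻¹' ({decide (i ∈ T)} : Set Bool) = {ω | ξ i ω = true} := by
        ext ω; simp [h]
      rw [this, hP]
    · rw [if_neg h]
      have : ξ i ⁻¹' ({decide (i ∈ T)} : Set Bool) = {ω | ξ i ω = true}ᶜ := by
        ext ω; simp [h]
      rw [this, prob_compl_eq_one_sub, hP, ENNReal.ofReal_sub _ hp0, ENNReal.ofReal_one]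
      exact (hm i) (measurableSet_singleton true)
  rw [Finset.prod_congr rfl hfac, Finset.prod_ite, Finset.prod_const, Finset.prod_const]
  have h1 : (Icc 1 n).filter (fun i => i ∈ T) = T := by
    ext i
    rw [Finset.mem_filter]
    exact ⟨fun h => h.2, fun h => ⟨hT h, h⟩⟩
  have h2 : ((Icc 1 n).filter (fun i => i ∉ T)).card = n - T.card := by
    have h3 := Finset.card_filter_add_card_filter_not (s := Icc 1 n) (fun i => i ∈ T)
    rw [h1, Nat.card_Icc] at h3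
    omega
  rw [h1, h2, ← ENNReal.ofReal_pow hp0, ← ENNReal.ofReal_pow (by linarith),
    ← ENNReal.ofReal_mul (by positivity)]

theorem prob_le_Ex (hp0 : 0 ≤ p) (hp1 : p ≤ 1) (hm : ∀ i, Measurable (ξ i))
    (hi : iIndepFun ξ P) (hP : ∀ i, P {ω | ξ i ω = true} = ENNReal.ofReal p) (n : ℕ)
    (E : Finset ℕ → Prop) [DecidablePred E] :
    P {ω | E (An ξ n ω)} ≤ ENNReal.ofReal (Ex p (Ioc 0 n) (fun A => if E A then (1 : ℝ) else 0)) := by
  classical
  have hI : Ioc 0 n = Icc 1 n := by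
    ext u
    simp only [Finset.mem_Icc, Finset.mem_Ioc]
    omega
  have hsub : {ω | E (An ξ n ω)} ⊆
      ⋃ T ∈ (Icc 1 n).powerset.filter E, {ω | An ξ n ω = T} := by
    intro ω hω
    simp only [Set.mem_iUnion]
    refine ⟨An ξ n ω, ?_, rfl⟩
    rw [Finset.mem_filter, Finset.mem_powerset]
    exact ⟨Finset.filter_subset _ _, hω⟩
  refine (measure_mono hsub).trans ((measure_biUnion_finset_le _ _).trans ?_)
  have h1 : ∀ T ∈ (Icc 1 n).powerset.filter E, P {ω | An ξ n ω = T} ≤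
      ENNReal.ofReal (p ^ T.card * (1 - p) ^ (n - T.card)) := by
    intro T hT
    rw [Finset.mem_filter, Finset.mem_powerset] at hT
    exact prob_eq_set hp0 hp1 hm hi hP n T hT.1
  refine (Finset.sum_le_sum h1).trans ?_
  have h1p : 0 ≤ 1 - p := by linarith
  rw [← ENNReal.ofReal_sum_of_nonneg (fun T _ => by positivity)]
  apply ENNReal.ofReal_le_ofReal
  unfold Ex
  rw [hI, Finset.sum_filter]
  apply le_of_eq
  apply Finset.sum_congr rfl
  intro A _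
  rw [Nat.card_Icc, Nat.add_sub_cancel]
  by_cases h : E A <;> simp [h]

end

/-- the sums of blocks only grow when further, larger elements are added -/
theorem Sm_mono {Ω : Type} (ξ : ℕ → Ω → Bool) {n m : ℕ} (hnm : n ≤ m) (ω : Ω) :
    Sm (An ξ n ω) ⊆ Sm (An ξ m ω) := by
  intro s hs
  simp only [Sm, Finset.mem_image, Finset.mem_filter, Finset.mem_product] at hs ⊢
  obtain ⟨q, ⟨⟨h1, h2⟩, h3⟩, h4⟩ := hs
  simp only [An, Finset.mem_filter, Finset.mem_Icc] at h1 h2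
  refine ⟨q, ⟨⟨?_, ?_⟩, h3⟩, ?_⟩
  · simp only [An, Finset.mem_filter, Finset.mem_Icc]
    exact ⟨⟨h1.1.1, h1.1.2.trans hnm⟩, h1.2⟩
  · simp only [An, Finset.mem_filter, Finset.mem_Icc]
    exact ⟨⟨h2.1.1, h2.1.2.trans hnm⟩, h2.2⟩
  · rw [← h4]
    unfold S
    apply Finset.sum_congr _ (fun _ _ => rfl)
    ext u
    simp only [An, Finset.mem_filter, Finset.mem_Icc]
    constructor
    · rintro ⟨⟨⟨h5, h6⟩, h7⟩, h8, h9⟩
      exact ⟨⟨⟨h5, by omega⟩, h7⟩, h8, h9⟩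
    · rintro ⟨⟨⟨h5, h6⟩, h7⟩, h8, h9⟩
      exact ⟨⟨⟨h5, by omega⟩, h7⟩, h8, h9⟩

/-- **Almost sure version.** -/
theorem almost_sure {Ω : Type} [MeasurableSpace Ω] {P : Measure Ω} [IsProbabilityMeasure P]
    {ξ : ℕ → Ω → Bool} {p : ℝ} (hp0 : 0 < p) (hp1 : p < 1) (hm : ∀ i, Measurable (ξ i))
    (hi : iIndepFun ξ P) (hP : ∀ i, P {ω | ξ i ω = true} = ENNReal.ofReal p) :
    ∀ᵐ ω ∂P, ∀ᶠ n : ℕ in atTop,
      p ^ 4 / 83886080 * (n : ℝ) ^ 2 ≤ ((Sm (An ξ n ω)).card : ℝ) := by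
  classical
  obtain ⟨δ, D, hδ, hD, hrate⟩ := rate hp0 hp1
  set s : ℕ → Set Ω := fun k =>
    {ω | ((Sm (An ξ (2 ^ k) ω)).card : ℝ) < p ^ 4 / 20971520 * ((2 ^ k : ℕ) : ℝ) ^ 2} with hs
  have hle : ∀ k, P (s k) ≤ ENNReal.ofReal (D * ((2 : ℝ) ^ (-δ)) ^ k) := by
    intro k
    have h1 := prob_le_Ex hp0.le hp1.le hm hi hP (2 ^ k)
      (fun A => ((Sm A).card : ℝ) < p ^ 4 / 20971520 * ((2 ^ k : ℕ) : ℝ) ^ 2)
    refine h1.trans (ENNReal.ofReal_le_ofReal ?_)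
    have h2 := hrate (2 ^ k) Nat.one_le_two_pow
    refine le_trans (le_of_eq ?_) (h2.trans (le_of_eq ?_))
    · rfl
    · congr 1
      push_cast
      rw [← Real.rpow_natCast, ← Real.rpow_natCast, ← Real.rpow_mul (by norm_num),
        ← Real.rpow_mul (by norm_num)]
      congr 1; ring
  have hr0 : 0 < (2 : ℝ) ^ (-δ) := by positivity
  have hr1 : (2 : ℝ) ^ (-δ) < 1 := Real.rpow_lt_one_of_one_lt_of_neg (by norm_num) (by linarith)
  have hsum : ∑' k, P (s k) ≠ ⊤ := by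
    have hS : Summable (fun k : ℕ => D * ((2 : ℝ) ^ (-δ)) ^ k) :=
      (summable_geometric_of_lt_one hr0.le hr1).mul_left D
    have h1 : ∑' k, P (s k) ≤ ∑' k : ℕ, ENNReal.ofReal (D * ((2 : ℝ) ^ (-δ)) ^ k) :=
      ENNReal.tsum_le_tsum hle
    rw [← ENNReal.ofReal_tsum_of_nonneg (fun k => by positivity) hS] at h1
    exact ne_top_of_le_ne_top ENNReal.ofReal_ne_top h1
  have hae := ae_eventually_notMem hsum
  filter_upwards [hae] with ω hω
  obtain ⟨k0, hk0⟩ := eventually_atTop.1 hω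
  filter_upwards [eventually_ge_atTop (2 ^ k0)] with n hn
  have hn0 : n ≠ 0 := by
    have : 0 < 2 ^ k0 := by positivity
    omega
  set k := Nat.log 2 n with hk
  have hkk : k0 ≤ k := (Nat.le_log_iff_pow_le (by norm_num) hn0).2 hn
  have h1 : 2 ^ k ≤ n := Nat.pow_log_le_self 2 hn0
  have h2 : n < 2 ^ (k + 1) := Nat.lt_pow_succ_log_self (by norm_num) n
  have h3 := hk0 k hkk
  simp only [hs, Set.mem_ofPred_eq, not_lt] at h3
  have h4 : ((Sm (An ξ (2 ^ k) ω)).card : ℝ) ≤ ((Sm (An ξ n ω)).card : ℝ) := by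
    exact_mod_cast Finset.card_le_card (Sm_mono ξ h1 ω)
  have h5 : (n : ℝ) ≤ 2 * ((2 ^ k : ℕ) : ℝ) := by
    have : n ≤ 2 * 2 ^ k := by rw [pow_succ] at h2; omega
    exact_mod_cast this
  have h6 : (n : ℝ) ^ 2 ≤ (2 * ((2 ^ k : ℕ) : ℝ)) ^ 2 := by gcongr
  have h7 : 0 ≤ p ^ 4 / 83886080 := by positivity
  calc p ^ 4 / 83886080 * (n : ℝ) ^ 2 ≤ p ^ 4 / 83886080 * (2 * ((2 ^ k : ℕ) : ℝ)) ^ 2 :=
        mul_le_mul_of_nonneg_left h6 h7
    _ = p ^ 4 / 20971520 * ((2 ^ k : ℕ) : ℝ) ^ 2 := by ring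
    _ ≤ _ := h3.trans h4

end Pool.Agent.KS6_25.CSR
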